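import Pool.Agent.Zk81.Out.Fano

/-! A combinatorial inequality for eight subspaces of the dual of a vector space with eight
elements. -/

set_option autoImplicit false

namespace Pool.Agent.Zk92.ET

open Pool.Agent.Zk81.Out

/-- the sum -/
def x3 (a b : T3) : T3 := (a.1 ^^ b.1, a.2.1 ^^ b.2.1, a.2.2 ^^ b.2.2)

/-- the number of a vector -/
def ix (c : T3) : ℕ := c.1.toNat + 2 * c.2.1.toNat + 4 * c.2.2.toNat

/-- the sixteen subspaces, as sets of bits -/
def sb (j : ℕ) : ℕ :=
  match j with
  | 0 => 1 | 1 => 3 | 2 => 5 | 3 => 9 | 4 => 17 | 5 => 33 | 6 => 65 | 7 => 129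
  | 8 => 15 | 9 => 51 | 10 => 85 | 11 => 105 | 12 => 153 | 13 => 165 | 14 => 195 | _ => 255

/-- `c` is in the `j`-th subspace -/
def memb (j : ℕ) (c : T3) : Bool := (sb j).testBit (ix c)

/-- the dimension of the `j`-th subspace -/
def dm (j : ℕ) : ℕ := if j = 0 then 0 else if j < 8 then 1 else if j < 15 then 2 else 3

/-- the subspaces orthogonal to a vector, as sets of bits -/
def om (l : T3) : ℕ :=
  match ix l with
  | 0 => 65535 | 1 => 1109 | 2 => 563 | 3 => 4249 | 4 => 271 | 5 => 8357 | 6 => 16579 | _ => 2153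

/-- `l` is orthogonal to the `j`-th subspace -/
def orth (l : T3) (j : ℕ) : Bool := (om l).testBit j

lemma orth_iff : ∀ l : T3, ∀ j < 16, orth l j = true ↔ ∀ c : T3, memb j c = true → par l c = false := by
  decide +kernel

lemma card_memb : ∀ j < 16, (Finset.univ.filter fun c : T3 => memb j c = true).card = 2 ^ dm j := by
  decide +kernel

/-- a function with given values -/
def mk8 (b0 b1 b2 b3 b4 b5 b6 b7 : Bool) (l : T3) : Bool :=
  match ix l with
  | 0 => b0 | 1 => b1 | 2 => b2 | 3 => b3 | 4 => b4 | 5 => b5 | 6 => b6 | _ => b7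

lemma mk8_eq (g : T3 → Bool) : g = mk8 (g (false, false, false)) (g (true, false, false))
    (g (false, true, false)) (g (true, true, false)) (g (false, false, true))
    (g (true, false, true)) (g (false, true, true)) (g (true, true, true)) := by
  funext l
  obtain ⟨l1, l2, l3⟩ := l
  cases l1 <;> cases l2 <;> cases l3 <;> rfl

lemma code8 : ∀ b0 b1 b2 b3 b4 b5 b6 b7 : Bool, ∃ j, j < 16 ∧ ∀ c : T3,
    memb j c = true ↔ ∀ l : T3, par l c = true → mk8 b0 b1 b2 b3 b4 b5 b6 b7 l = false := by
  decide +kernel

/-- the orthogonal complement of the support of a function -/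
lemma code (g : T3 → Bool) : ∃ j, j < 16 ∧ ∀ c : T3,
    memb j c = true ↔ ∀ l : T3, par l c = true → g l = false := by
  have h := code8 (g (false, false, false)) (g (true, false, false))
    (g (false, true, false)) (g (true, true, false)) (g (false, false, true))
    (g (true, false, true)) (g (false, true, true)) (g (true, true, true))
  rwa [← mk8_eq g] at h

/-- search -/
def bad (wt : ℕ → ℕ) (t : ℕ) : List T3 → List (T3 × ℕ) → ℕ → ℕ → Bool
  | [], _, s, _ => decide (s < t)
  | P :: ps, as, s, mx => (List.range 16).all fun j =>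
      decide (mx < dm j) || (decide (s + wt (dm j) + wt mx * ps.length < t) ||
      (!(as.all fun q => orth (x3 P q.1) j || orth (x3 P q.1) q.2) ||
        bad wt t ps ((P, j) :: as) (s + wt (dm j)) mx))

theorem bad_sound {wt : ℕ → ℕ} (hwt : ∀ a b, a ≤ b → wt a ≤ wt b) {t : ℕ} {J : T3 → ℕ}
    (hJ : ∀ P, J P < 16)
    (hp : ∀ P Q, P ≠ Q → orth (x3 P Q) (J P) = true ∨ orth (x3 P Q) (J Q) = true)
    {mx : ℕ} (hmx : ∀ P, dm (J P) ≤ mx) :
    ∀ (ps : List T3) (as : List (T3 × ℕ)) (s : ℕ), (∀ q ∈ as, q.2 = J q.1) →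
      (∀ P ∈ ps, ∀ q ∈ as, P ≠ q.1) → ps.Nodup → bad wt t ps as s mx = true →
      s + (ps.map fun P => wt (dm (J P))).sum < t := by
  intro ps
  induction ps with
  | nil =>
    intro as s _ _ _ h
    simpa [bad] using h
  | cons P ps ih =>
    intro as s h1 h2 h3 h
    rw [bad, List.all_eq_true] at h
    have h4 := h (J P) (List.mem_range.2 (hJ P))
    rw [Bool.or_eq_true, Bool.or_eq_true, Bool.or_eq_true] at h4
    rw [List.map_cons, List.sum_cons, ← add_assoc]
    rcases h4 with h4 | h4 | h4 | h4
    · have := hmx P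
      have h5 := of_decide_eq_true h4
      omega
    · have h5 := of_decide_eq_true h4
      refine lt_of_le_of_lt (Nat.add_le_add_left ?_ _) h5
      have h6 : (ps.map fun P => wt (dm (J P))).sum ≤ ps.length • wt mx := by
        have := List.sum_le_card_nsmul (ps.map fun P => wt (dm (J P))) (wt mx) (by
          intro x hx
          obtain ⟨Q, -, rfl⟩ := List.mem_map.1 hx
          exact hwt _ _ (hmx Q))
        rwa [List.length_map] at this
      rw [mul_comm]
      simpa using h6
    · exfalso
      have h5 : (as.all fun q => orth (x3 P q.1) (J P) || orth (x3 P q.1) q.2) = true := by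
        rw [List.all_eq_true]
        intro q hq
        rw [Bool.or_eq_true, h1 q hq]
        exact hp P q.1 (h2 P (List.mem_cons_self) q hq)
      rw [h5] at h4
      exact absurd h4 (by decide)
    · refine ih ((P, J P) :: as) (s + wt (dm (J P))) ?_ ?_ (List.nodup_cons.1 h3).2 h4
      · intro q hq
        rcases List.mem_cons.1 hq with rfl | hq
        · rfl
        · exact h1 q hq
      · intro R hR q hq
        rcases List.mem_cons.1 hq with rfl | hq
        · rintro rfl
          exact (List.nodup_cons.1 h3).1 hR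
        · exact h2 R (List.mem_cons_of_mem _ hR) q hq

/-- the seven nonzero vectors -/
def rest : List T3 := [(true, false, false), (false, true, false), (true, true, false),
  (false, false, true), (true, false, true), (false, true, true), (true, true, true)]

lemma x3_comm : ∀ a b : T3, x3 a b = x3 b a := by decide +kernel

lemma x3_cancel : ∀ a b c : T3, x3 (x3 a c) (x3 b c) = x3 a b := by decide +kernel

lemma x3_x3 : ∀ a b : T3, x3 (x3 a b) b = a := by decide +kernel

lemma x3_ne : ∀ a b c : T3, a ≠ b → x3 a c ≠ x3 b c := by decide +kernel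

lemma x3_ne0 : ∀ a b : T3, a ≠ b → x3 a b ≠ (false, false, false) := by decide +kernel

/-- the weights -/
theorem sum_lt {wt : ℕ → ℕ} (hwt : ∀ a b, a ≤ b → wt a ≤ wt b) {t : ℕ}
    (hb : ∀ j < 16, bad wt t rest [((false, false, false), j)] (wt (dm j)) (dm j) = true)
    {J : T3 → ℕ} (hJ : ∀ P, J P < 16)
    (hp : ∀ P Q, P ≠ Q → orth (x3 P Q) (J P) = true ∨ orth (x3 P Q) (J Q) = true) :
    ∑ P : T3, wt (dm (J P)) < t := by
  obtain ⟨P0, hP0⟩ := Finite.exists_max (fun P : T3 => dm (J P))
  have h := bad_sound hwt (t := t) (J := fun P => J (x3 P P0)) (fun P => hJ _) (fun P Q hPQ => by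
      have := hp _ _ (x3_ne P Q P0 hPQ)
      rwa [x3_cancel] at this) (mx := dm (J (x3 (false, false, false) P0)))
      (fun P => by
        have e : x3 (false, false, false) P0 = P0 := by
          obtain ⟨a, b, c⟩ := P0
          cases a <;> cases b <;> cases c <;> rfl
        rw [e]
        exact hP0 _) rest [((false, false, false), J (x3 (false, false, false) P0))]
      (wt (dm (J (x3 (false, false, false) P0)))) (by
        intro q hq
        rw [List.mem_singleton] at hq
        subst hq
        rfl) (by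
        intro P hP q hq
        rw [List.mem_singleton] at hq
        subst hq
        rintro rfl
        exact (show ((false, false, false) : T3) ∉ rest by decide) hP) (by decide) (hb _ (hJ _))
  have e1 : ∑ P : T3, wt (dm (J P)) = ∑ P : T3, wt (dm (J (x3 P P0))) := by
    refine Finset.sum_bij' (fun P _ => x3 P P0) (fun P _ => x3 P P0) ?_ ?_ ?_ ?_ ?_
    · intro P _; exact Finset.mem_univ _
    · intro P _; exact Finset.mem_univ _
    · intro P _; exact x3_x3 P P0
    · intro P _; exact x3_x3 P P0
    · intro P _; rw [x3_x3]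
  rw [e1]
  have e2 : ∑ P : T3, wt (dm (J (x3 P P0))) =
      wt (dm (J (x3 (false, false, false) P0))) + (rest.map fun P => wt (dm (J (x3 P P0)))).sum := by
    simp only [Fintype.sum_prod_type, Fintype.sum_bool, rest, List.map_cons, List.map_nil,
      List.sum_cons, List.sum_nil]
    ring
  rw [e2]
  exact h

lemma bad_one : ∀ j < 16, bad id 8 rest [((false, false, false), j)] (id (dm j)) (dm j) = true := by
  decide +kernel

/-- the weights of the dimensions `0, 1, 2, 3` -/
def wtB (z : ℕ) : ℕ := if z = 0 then 0 else if z = 1 then 5 else if z = 2 then 15 else 19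

lemma bad_two : ∀ j < 16, bad wtB 51 rest [((false, false, false), j)] (wtB (dm j)) (dm j) = true := by
  decide +kernel

lemma wtB_mono : ∀ a b, a ≤ b → wtB a ≤ wtB b := by
  intro a b hab
  unfold wtB
  split_ifs <;> omega

/-- the sum of the dimensions of the orthogonal complements is at most seven -/
theorem sum_dim {J : T3 → ℕ} (hJ : ∀ P, J P < 16)
    (hp : ∀ P Q, P ≠ Q → orth (x3 P Q) (J P) = true ∨ orth (x3 P Q) (J Q) = true) :
    ∑ P : T3, dm (J P) ≤ 7 :=
  Nat.le_of_lt_succ (sum_lt (wt := id) (fun _ _ h => h) bad_one hJ hp)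

theorem sum_wtB {J : T3 → ℕ} (hJ : ∀ P, J P < 16)
    (hp : ∀ P Q, P ≠ Q → orth (x3 P Q) (J P) = true ∨ orth (x3 P Q) (J Q) = true) :
    ∑ P : T3, wtB (dm (J P)) ≤ 50 :=
  Nat.le_of_lt_succ (sum_lt (wt := wtB) wtB_mono bad_two hJ hp)

end Pool.Agent.Zk92.ET
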