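import Pool.Agent.Zk81.Out.Vals
import Pool.Agent.Zk92.ET.Comb

/-! Counting by cosets of the group generated by the second members of a minimal sum of three
points. -/

set_option autoImplicit false

namespace Pool.Agent.Zk92.ET

open Pool.Agent.H315R3.ETC Pool.Agent.TH673.VG Pool.Agent.R19.QS Pool.Agent.N88.ETC
  Pool.Agent.Zk81.Out

variable {S : QData} {B : Type*} [AddCommGroup B] {β : S.G → S.G → B}

lemma dm_le (j : ℕ) : dm j ≤ 3 := by
  unfold dm
  split_ifs <;> omega

/-- the number of products of `w1, w2, w3` orthogonal to `b` is at most `2 ^ z b` -/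
def Small (S : QData) (w1 w2 w3 : S.G) (z : S.G → ℕ) : Prop :=
  ∀ b, {c : T3 | S.q b (pw w1 w2 w3 c) = S.zero}.ncard ≤ 2 ^ z b

section
variable (h : IsQuat S) (hB : Add S β) {H : Subgroup S.G} {χ : S.G → S.G → ZMod 2}
  (hχ : Sy S H χ) {w1 w2 w3 : S.G} (hw1 : w1 ∈ H) (hw2 : w2 ∈ H) (hw3 : w3 ∈ H)

include h hB hχ hw1 hw2 hw3

theorem exists_z [Fintype S.G] {v1 v2 v3 : S.G}
    (hT : ¬ Two β χ H (ge β χ w1 v1 + (ge β χ w2 v2 + ge β χ w3 v3))) :
    ∃ z : S.G → ℕ, (∀ b, z b ≤ 3) ∧ z 1 = 3 ∧ Small S w1 w2 w3 z ∧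
      8 * ∑ b : S.G, z b ≤ 7 * Fintype.card S.G ∧
      8 * ∑ b : S.G, wtB (z b) ≤ 50 * Fintype.card S.G := by
  classical
  have h01 : ∀ u : ZMod 2, u = 0 ∨ u = 1 := by decide
  have hf : ∀ l : T3, ∃ f : S.G → ZMod 2, (∀ a b, f (a * b) = f a + f b) ∧
      (l ≠ (false, false, false) →
      (∀ n ∈ NN h hB hχ hw1 hw2 hw3 l, f n = 0) ∧ f (pw v1 v2 v3 l) = 1) := by
    intro l
    by_cases hl : l = (false, false, false)
    · exact ⟨fun _ => 0, fun _ _ => (add_zero 0).symm, fun hc => absurd hl hc⟩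
    · obtain ⟨f, hf1, hf2, hf3⟩ := exists_char h (not_mem h hB hχ hw1 hw2 hw3 hT hl) 1
      exact ⟨f, hf1, fun _ => ⟨hf2, hf3⟩⟩
  choose f hf1 hf2 using hf
  have hl0 : ∀ {l c : T3}, par l c = true → l ≠ (false, false, false) := by
    rintro l c hlc rfl
    simp [par] at hlc
  have hcode : ∀ b : S.G, ∃ j, j < 16 ∧ ∀ c : T3,
      memb j c = true ↔ ∀ l : T3, par l c = true → decide (f l b = 1) = false := fun b =>
    code fun l => decide (f l b = 1)
  choose j hj1 hj2 using hcode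
  have hpair : ∀ b : S.G, ∀ P Q : T3, P ≠ Q →
      orth (x3 P Q) (j (b * pw v1 v2 v3 P)) = true ∨
        orth (x3 P Q) (j (b * pw v1 v2 v3 Q)) = true := by
    intro b P Q hPQ
    have hl := x3_ne0 P Q hPQ
    have e := (hf2 _ hl).2
    have e1 : f (x3 P Q) (b * pw v1 v2 v3 P) + f (x3 P Q) (b * pw v1 v2 v3 Q) = 1 := by
      rw [← hf1, mul_mul_mul_comm, h.exp2, one_mul, ← pw_xor h.exp2]
      exact e
    have key : ∀ R : T3, f (x3 P Q) (b * pw v1 v2 v3 R) = 1 →
        orth (x3 P Q) (j (b * pw v1 v2 v3 R)) = true := by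
      intro R hR
      rw [orth_iff _ _ (hj1 _)]
      intro c hc
      by_contra hpar
      rw [Bool.not_eq_false] at hpar
      have := (hj2 _ c).1 hc _ hpar
      rw [decide_eq_false_iff_not] at this
      exact this hR
    rcases h01 (f (x3 P Q) (b * pw v1 v2 v3 P)) with k | k
    · right
      refine key Q ?_
      rwa [k, zero_add] at e1
    · left
      exact key P k
  have hsum : ∀ F : ℕ → ℕ, ∀ n, (∀ b : S.G, ∑ P : T3, F (dm (j (b * pw v1 v2 v3 P))) ≤ n) →
      8 * ∑ b : S.G, F (dm (j b)) ≤ n * Fintype.card S.G := by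
    intro F n hn
    have e1 : ∑ b : S.G, ∑ P : T3, F (dm (j (b * pw v1 v2 v3 P))) =
        8 * ∑ b : S.G, F (dm (j b)) := by
      rw [Finset.sum_comm]
      have e2 : ∀ P : T3, ∑ b : S.G, F (dm (j (b * pw v1 v2 v3 P))) = ∑ b : S.G, F (dm (j b)) :=
        fun P => Equiv.sum_comp (Equiv.mulRight (pw v1 v2 v3 P)) (fun b => F (dm (j b)))
      simp_rw [e2]
      rw [Finset.sum_const, smul_eq_mul]
      rfl
    rw [← e1]
    calc ∑ b : S.G, ∑ P : T3, F (dm (j (b * pw v1 v2 v3 P))) ≤ ∑ _b : S.G, n :=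
          Finset.sum_le_sum fun b _ => hn b
      _ = n * Fintype.card S.G := by
          rw [Finset.sum_const, smul_eq_mul, Finset.card_univ, mul_comm]
  refine ⟨fun b => dm (j b), fun b => dm_le _, ?_, ?_, ?_, ?_⟩
  · have h1 : ∀ c : T3, memb (j 1) c = true := by
      intro c
      rw [hj2]
      intro l _
      rw [decide_eq_false_iff_not]
      have : f l 1 = 0 := by
        have := hf1 l 1 1
        rw [mul_one] at this
        exact left_eq_add.1 this
      rw [this]
      decide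
    have h2 := card_memb (j 1) (hj1 1)
    rw [Finset.filter_true_of_mem (fun c _ => h1 c)] at h2
    have h3 : (Finset.univ : Finset T3).card = 2 ^ 3 := rfl
    rw [h3] at h2
    exact (Nat.pow_right_injective (le_refl 2) h2).symm
  · intro b
    rw [← card_memb (j b) (hj1 b), ← Set.ncard_coe_finset]
    refine Set.ncard_le_ncard ?_ (Set.toFinite _)
    intro c hc
    rw [Finset.coe_filter]
    refine ⟨Finset.mem_univ _, ?_⟩
    rw [hj2]
    intro l hl
    have := (hf2 l (hl0 hl)).1 _ (V_le h hB hχ hw1 hw2 hw3 hc hl)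
    rw [this]
    decide
  · exact hsum (fun z => z) 7 fun b => sum_dim (fun P => hj1 _) (hpair b)
  · exact hsum wtB 50 fun b => sum_wtB (fun P => hj1 _) (hpair b)

omit hB hχ in
/-- the relative index of the value group -/
theorem rel_ge [Finite S.G] {z : S.G → ℕ} (hz : Small S w1 w2 w3 z) (b : S.G) :
    8 ≤ (D h b).relIndex H * 2 ^ z b := by
  classical
  have hmem : ∀ c : T3, pw w1 w2 w3 c ∈ H := by
    rintro ⟨c1, c2, c3⟩
    refine H.mul_mem ?_ (H.mul_mem ?_ ?_)
    · cases c1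
      · exact H.one_mem
      · exact hw1
    · cases c2
      · exact H.one_mem
      · exact hw2
    · cases c3
      · exact H.one_mem
      · exact hw3
  let φ : T3 → H ⧸ (D h b).subgroupOf H := fun c => QuotientGroup.mk ⟨pw w1 w2 w3 c, hmem c⟩
  have hfib : ∀ c c' : T3, φ c = φ c' → S.q b (pw w1 w2 w3 (x3 c c')) = S.zero := by
    intro c c' e
    have e1 := QuotientGroup.eq.1 e
    rw [Subgroup.mem_subgroupOf] at e1
    have e2 : (pw w1 w2 w3 c)⁻¹ * pw w1 w2 w3 c' ∈ D h b := e1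
    rw [inv_self h] at e2
    have e3 : pw w1 w2 w3 (x3 c c') = pw w1 w2 w3 c * pw w1 w2 w3 c' := pw_xor h.exp2 _ _ _ _ _
    rw [e3]
    exact e2
  have h1 := Finset.card_le_mul_card_image (f := φ) (Finset.univ : Finset T3) (2 ^ z b) (by
    intro a ha
    obtain ⟨c0, -, rfl⟩ := Finset.mem_image.1 ha
    rw [← Set.ncard_coe_finset]
    refine le_trans ?_ (hz b)
    refine Set.ncard_le_ncard_of_injOn (fun c => x3 c c0) ?_ ?_ (Set.toFinite _)
    · intro c hc
      have hc' : φ c = φ c0 := by simpa using hc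
      exact hfib c c0 hc'
    · intro c _ c' _ e
      have e' : x3 c c0 = x3 c' c0 := e
      rw [← x3_x3 c c0, e', x3_x3])
  have h2 : (Finset.univ.image φ).card ≤ (D h b).relIndex H := by
    have : (D h b).relIndex H = Nat.card (H ⧸ (D h b).subgroupOf H) := rfl
    rw [this, ← Set.ncard_coe_finset]
    have h3 := Set.ncard_le_card (((Finset.univ.image φ : Finset _) : Set (H ⧸ (D h b).subgroupOf H)))
    exact h3
  have h3 : (Finset.univ : Finset T3).card = 8 := rfl
  rw [h3] at h1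
  calc 8 ≤ 2 ^ z b * (Finset.univ.image φ).card := h1
    _ ≤ 2 ^ z b * (D h b).relIndex H := Nat.mul_le_mul_left _ h2
    _ = _ := mul_comm _ _

end

section
variable (h : IsQuat S) [Finite S.G] {H : Subgroup S.G}

omit [Finite S.G] in
lemma index_eq' (b : S.G) : (D h b).index = (D h b).relIndex H * (D h b ⊔ H).index := by
  rw [← Subgroup.relIndex_mul_index (le_sup_left : D h b ≤ D h b ⊔ H), Subgroup.relIndex_sup_left]

/-- outside a closed subgroup -/
lemma two_rel (hcl : Closed S H) {b : S.G} (hb : b ∉ H) :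
    2 * (D h b).relIndex H ≤ (D h b).index := by
  have h1 : (D h b ⊔ H).index ≠ 1 := fun hc =>
    closed_sup h hcl hb (Subgroup.index_eq_one.1 hc)
  have h2 : (D h b ⊔ H).index ≠ 0 := Subgroup.index_ne_zero_of_finite
  rw [index_eq' h b, mul_comm]
  exact Nat.mul_le_mul_left _ (by omega)

lemma rel_le (b : S.G) : (D h b).relIndex H ≤ (D h b).index := by
  have h2 : (D h b ⊔ H).index ≠ 0 := Subgroup.index_ne_zero_of_finite
  rw [index_eq' h b]
  exact Nat.le_mul_of_pos_right _ (by omega)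

end

end Pool.Agent.Zk92.ET
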