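import Pool.Agent.Zk92.ET.Cnt

/-! Structures of elementary type: value groups of small index in the mean, and many orthogonal
pairs. -/

set_option autoImplicit false

namespace Pool.Agent.Zk92.ET

open Pool.Agent.H315R3.ETC Pool.Agent.TH673.VG Pool.Agent.R19.QS Pool.Agent.N88.ETC
  Pool.Agent.Zk81.Out

variable {S : QData} {B : Type*} [AddCommGroup B] {β : S.G → S.G → B}

section
variable (h : IsQuat S) (hB : Add S β)

include h hB in
/-- no relation between the quaternions with a slot in `H` is violated by the symbol -/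
theorem graph_ok' {H : Subgroup S.G} {χ : S.G → S.G → ZMod 2} (hχ : Sy S H χ)
    (hno : ∀ w1 ∈ H, ∀ w2 ∈ H, ∀ w3 ∈ H, ∀ v1 v2 v3 : S.G,
      Two β χ H (ge β χ w1 v1 + (ge β χ w2 v2 + ge β χ w3 v3))) :
    ((0 : B), (1 : ZMod 2)) ∉
      AddSubgroup.closure {p : B × ZMod 2 | ∃ w ∈ H, ∃ v, p = ge β χ w v} := by
  classical
  intro hmem
  have hex : ∀ p ∈ AddSubgroup.closure {p : B × ZMod 2 | ∃ w ∈ H, ∃ v, p = ge β χ w v},
      ∃ n, p ∈ SN β χ H n := by
    intro p hp
    induction hp using AddSubgroup.closure_induction with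
    | mem p hp =>
      obtain ⟨w, hw, v, rfl⟩ := hp
      exact ⟨1, 0, rfl, w, hw, v, (add_zero _).symm⟩
    | zero => exact ⟨0, rfl⟩
    | add p r _ _ hp hr =>
      obtain ⟨m, hm⟩ := hp
      obtain ⟨n, hn⟩ := hr
      exact ⟨m + n, SN_add m n hm hn⟩
    | neg p _ hp =>
      rw [neg_eq_of_add_eq_zero_left (g_two hB p)]
      exact hp
  obtain ⟨n0, hn0⟩ := hex _ hmem
  have hex' : ∃ n, ((0 : B), (1 : ZMod 2)) ∈ SN β χ H n := ⟨n0, hn0⟩
  obtain ⟨n, hn, hmin⟩ : ∃ n, ((0 : B), (1 : ZMod 2)) ∈ SN β χ H n ∧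
      ∀ m < n, ((0 : B), (1 : ZMod 2)) ∉ SN β χ H m :=
    ⟨Nat.find hex', Nat.find_spec hex', fun m hm => Nat.find_min hex' hm⟩
  have hb2 : ∀ a b : B, 0 = a + b → a = b := fun a b hab =>
    add_right_cancel (hab.symm.trans (hB.two b).symm)
  match n, hn, hmin with
  | 0, hn, _ =>
    have e := congrArg Prod.snd (hn : ((0 : B), (1 : ZMod 2)) = 0)
    exact (by decide : ¬ (1 : ZMod 2) = 0) e
  | 1, hn, _ =>
    obtain ⟨r, hr, w, hw, v, e⟩ := hn
    have hr0 : r = 0 := hr
    rw [hr0, add_zero] at e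
    have e1 : (0 : B) = β w v := congrArg Prod.fst e
    have e2 : (1 : ZMod 2) = χ w v := congrArg Prod.snd e
    rw [sy_zero h hB hχ hw e1.symm] at e2
    exact absurd e2 (by decide)
  | 2, hn, _ =>
    obtain ⟨r, ⟨r', hr', w', hw', v', rfl⟩, w, hw, v, e⟩ := hn
    have hr0 : r' = 0 := hr'
    rw [hr0, add_zero] at e
    have e1 : (0 : B) = β w v + β w' v' := congrArg Prod.fst e
    have e2 : (1 : ZMod 2) = χ w v + χ w' v' := congrArg Prod.snd e
    rw [sy_b h hB hχ hw hw' (hb2 _ _ e1), CharTwo.add_self_eq_zero] at e2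
    exact absurd e2 (by decide)
  | m + 3, hn, hmin =>
    obtain ⟨r1, ⟨r2, ⟨r3, hr3, w3, hw3, v3, rfl⟩, w2, hw2, v2, rfl⟩, w1, hw1, v1, e⟩ := hn
    obtain ⟨u, hu, u', hu', t, t', e'⟩ := hno w1 hw1 w2 hw2 w3 hw3 v1 v2 v3
    refine hmin (m + 2) (by omega) ⟨ge β χ u' t' + r3, ⟨r3, hr3, u', hu', t', rfl⟩, u, hu, t, ?_⟩
    rw [e, ← add_assoc (ge β χ u t), ← e']
    abel

include hB in
/-- the counting criterion -/
theorem elem_of_z [Fintype S.G]
    (hno : ∀ H : Subgroup S.G, Closed S H → 8 ≤ H.index → ∀ z : S.G → ℕ, (∀ b, z b ≤ 3) →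
      z 1 = 3 → (∀ b, 8 ≤ (D h b).relIndex H * 2 ^ z b) →
      8 * ∑ b : S.G, z b ≤ 7 * Fintype.card S.G →
      8 * ∑ b : S.G, wtB (z b) ≤ 50 * Fintype.card S.G → False) : Elem S := by
  refine elem_of_closed h fun H hcl hi => canExt_of_fun h hB (exists_out hi) fun χ hχ => ?_
  have hok := graph_ok' h hB hχ (by
    intro w1 hw1 w2 hw2 w3 hw3 v1 v2 v3
    by_contra hT
    obtain ⟨z, z1, z2, z3, z4, z5⟩ := exists_z h hB hχ hw1 hw2 hw3 hT
    exact hno H hcl hi z z1 z2 (fun b => rel_ge h hw1 hw2 hw3 z3 b) z4 z5)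
  obtain ⟨Φ, h1, h2⟩ := exists_hom hB.two _ hok
  refine ⟨Φ, h1, fun y hy g => ?_⟩
  exact (h2 _ (AddSubgroup.subset_closure ⟨y, hy, g, rfl⟩)).symm

end

lemma ncard_sum {α : Type*} [Fintype α] (p : α → Prop) [DecidablePred p] :
    {a | p a}.ncard = ∑ a, if p a then 1 else 0 := by
  rw [Set.ncard_eq_toFinset_card', Finset.sum_boole]
  simp

lemma index_mul {G : Type*} [Group G] [Fintype G] (H : Subgroup G) [DecidablePred (· ∈ H)] :
    (∑ a : G, if a ∈ H then 1 else 0) * H.index = Fintype.card G := by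
  have h1 : (∑ a : G, if a ∈ H then 1 else 0) = Nat.card H := by
    rw [← ncard_sum (fun a => a ∈ H)]
    exact (Nat.card_coe_set_eq (H : Set G)).symm
  rw [h1, Subgroup.card_mul_index, Nat.card_eq_fintype_card]

section
variable (h : IsQuat S) (hB : Add S β)

/-- the number of quaternions of the form `q(a,x)`, `x ∈ G` -/
noncomputable def nq (S : QData) (a : S.G) : ℕ := {t : S.Q | ∃ x : S.G, S.q a x = t}.ncard

/-- the number of quaternions of the form `q(a,k)`, `k ∈ H` -/
noncomputable def nqH (S : QData) (H : Subgroup S.G) (a : S.G) : ℕ :=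
  {t : S.Q | ∃ k ∈ H, S.q a k = t}.ncard

/-- summation of the local inequalities -/
lemma sum_up [Fintype S.G] {H : Subgroup S.G} (hi : 8 ≤ H.index) {z : S.G → ℕ}
    (hz : 8 * ∑ b : S.G, z b ≤ 7 * Fintype.card S.G) (p r : S.G → Prop)
    (hpr : ∀ b : S.G, ∀ x y u v : ℕ, (b ∈ H → x = 0) → (b ∉ H → x = 1) → (p b → y = 1) →
      (¬ p b → y = 0) → (r b → u = 1) → (¬ r b → u = 0) → (b = 1 → v = 3) → (b ≠ 1 → v = 0) →
      x + u + v ≤ y + z b) : {b | r b}.ncard + 2 < {b | p b}.ncard := by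
  classical
  rw [ncard_sum, ncard_sum]
  have h1 : ∑ b : S.G, ((if b ∈ H then 0 else 1) + (if r b then 1 else 0) +
      (if b = 1 then 3 else 0)) ≤ ∑ b : S.G, ((if p b then 1 else 0) + z b) := by
    refine Finset.sum_le_sum fun b _ => hpr b _ _ _ _ ?_ ?_ ?_ ?_ ?_ ?_ ?_ ?_
    · intro hb; rw [if_pos hb]
    · intro hb; rw [if_neg hb]
    · intro hb; rw [if_pos hb]
    · intro hb; rw [if_neg hb]
    · intro hb; rw [if_pos hb]
    · intro hb; rw [if_neg hb]
    · intro hb; rw [if_pos hb]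
    · intro hb; rw [if_neg hb]
  rw [Finset.sum_add_distrib, Finset.sum_add_distrib, Finset.sum_add_distrib,
    Finset.sum_ite_eq' Finset.univ (1 : S.G) (fun _ => 3), if_pos (Finset.mem_univ _)] at h1
  have h2 : (∑ b : S.G, if b ∈ H then 0 else 1) + (∑ b : S.G, if b ∈ H then 1 else 0) =
      Fintype.card S.G := by
    rw [← Finset.sum_add_distrib, ← Finset.card_univ, Finset.card_eq_sum_ones]
    refine Finset.sum_congr rfl fun b _ => ?_
    split_ifs <;> rfl
  have h3 := index_mul H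
  have h4 : (∑ a : S.G, if a ∈ H then 1 else 0) * 8 ≤ Fintype.card S.G := by
    rw [← h3]
    exact Nat.mul_le_mul_left _ hi
  omega

lemma one_mem_core : (1 : S.G) ∈ Core S := (Core S).one_mem

include h hB in
/-- at least as many value groups of index less than eight as of index more than eight -/
theorem elem_median [Fintype S.G]
    (hm : {a | a ∉ Core S ∧ 8 < nq S a}.ncard ≤ {a | a ∉ Core S ∧ nq S a < 8}.ncard + 2) :
    Elem S := by
  refine elem_of_z h hB fun H hcl hi z hz3 hz1 hrel hs _ => ?_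
  have hcore : Core S ≤ H := sInf_le hcl
  have := sum_up hi hs (fun a => a ∉ Core S ∧ 8 < nq S a) (fun a => a ∉ Core S ∧ nq S a < 8) (by
    intro b x y u v x0 x1 y1 y0 u1 u0 v3 v0
    have i1 : (D h b).index ≤ nq S b := index_le_vals h b
    have i2 := rel_le h (H := H) b
    have i3 := hrel b
    by_cases hb1 : b = 1
    · subst hb1
      rw [x0 H.one_mem, u0 (fun hc => hc.1 one_mem_core), v3 rfl, hz1]
      omega
    rw [v0 hb1, add_zero]
    by_cases hbH : b ∈ H
    · rw [x0 hbH, zero_add]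
      by_cases hr : b ∉ Core S ∧ nq S b < 8
      · rw [u1 hr]
        by_contra hc
        have hz0 : z b = 0 := by omega
        rw [hz0, pow_zero, mul_one] at i3
        have := hr.2
        omega
      · rw [u0 hr]
        omega
    · have hbC : b ∉ Core S := fun hc => hbH (hcore hc)
      have i4 := two_rel h hcl hbH
      rw [x1 hbH]
      rcases Nat.lt_or_ge (z b) 2 with hz | hz
      · rcases Nat.lt_or_ge (z b) 1 with hz' | hz'
        · have hz0 : z b = 0 := by omega
          rw [hz0, pow_zero, mul_one] at i3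
          rw [y1 ⟨hbC, by omega⟩, u0 (fun hc => by have := hc.2; omega)]
          omega
        · have hz0 : z b = 1 := by omega
          rw [hz0, pow_one] at i3
          rw [u0 (fun hc => by have := hc.2; omega)]
          omega
      · by_cases hr : b ∉ Core S ∧ nq S b < 8
        · rw [u1 hr]; omega
        · rw [u0 hr]; omega)
  omega

/-- the number of quaternions `q(a,k)`, `k ∈ H`, is at least the relative index -/
lemma rel_le_vals [Finite S.G] (H : Subgroup S.G) (a : S.G) :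
    (D h a).relIndex H ≤ nqH S H a := by
  have hft : {t : S.Q | ∃ k ∈ H, S.q a k = t}.Finite := by
    refine (Set.finite_range (fun x : S.G => S.q a x)).subset ?_
    rintro t ⟨x, -, rfl⟩
    exact ⟨x, rfl⟩
  have hfin : Finite {t : S.Q | ∃ k ∈ H, S.q a k = t} := hft.to_subtype
  let φ : H ⧸ (D h a).subgroupOf H → {t : S.Q | ∃ k ∈ H, S.q a k = t} := fun z =>
    ⟨S.q a (Quotient.out z : H), _, (Quotient.out z : H).2, rfl⟩
  have hinj : Function.Injective φ := by
    intro z z' e
    have e1 : S.q a (Quotient.out z : H) = S.q a (Quotient.out z' : H) := congrArg Subtype.val e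
    have e2 := (h.qs3 _ _ _).1 e1
    rw [← QuotientGroup.out_eq' z, ← QuotientGroup.out_eq' z']
    refine QuotientGroup.eq.2 ?_
    rw [Subgroup.mem_subgroupOf]
    show ((Quotient.out z : H) : S.G)⁻¹ * (Quotient.out z' : H) ∈ D h a
    rw [inv_self h]
    exact e2
  have := Nat.card_le_card_of_injective φ hinj
  rw [Nat.card_coe_set_eq] at this
  exact this

include h hB in
/-- the local form -/
theorem elem_median_local [Fintype S.G]
    (hm : ∀ H : Subgroup S.G, Closed S H → 8 ≤ H.index →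
      {b | b ∉ H ∧ 8 ≤ nqH S H b}.ncard ≤ {b | b ∉ H ∧ nqH S H b < 4}.ncard + 2) :
    Elem S := by
  refine elem_of_z h hB fun H hcl hi z hz3 hz1 hrel hs _ => ?_
  have := sum_up hi hs (fun b => b ∉ H ∧ 8 ≤ nqH S H b) (fun b => b ∉ H ∧ nqH S H b < 4) (by
    intro b x y u v x0 x1 y1 y0 u1 u0 v3 v0
    have i1 : (D h b).relIndex H ≤ nqH S H b := rel_le_vals h H b
    have i3 := hrel b
    by_cases hbH : b ∈ H
    · rw [x0 hbH, u0 (fun hc => hc.1 hbH)]
      by_cases hb1 : b = 1
      · rw [v3 hb1, hb1, hz1]; omega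
      · rw [v0 hb1]; omega
    · have hb1 : b ≠ 1 := fun hc => hbH (by rw [hc]; exact H.one_mem)
      rw [x1 hbH, v0 hb1, add_zero]
      rcases Nat.lt_or_ge (z b) 2 with hz | hz
      · rcases Nat.lt_or_ge (z b) 1 with hz' | hz'
        · have hz0 : z b = 0 := by omega
          rw [hz0, pow_zero, mul_one] at i3
          rw [y1 ⟨hbH, by omega⟩, u0 (fun hc => by have := hc.2; omega)]
          omega
        · have hz0 : z b = 1 := by omega
          rw [hz0, pow_one] at i3
          rw [u0 (fun hc => by have := hc.2; omega)]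
          omega
      · by_cases hr : b ∉ H ∧ nqH S H b < 4
        · rw [u1 hr]; omega
        · rw [u0 hr]; omega)
  have := hm H hcl hi
  omega

end

end Pool.Agent.Zk92.ET
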