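import Pool.Agent.Zk92.ET.Fin

/-! Structures with many orthogonal pairs. -/

set_option autoImplicit false

namespace Pool.Agent.Zk92.ET

open Pool.Agent.H315R3.ETC Pool.Agent.TH673.VG Pool.Agent.R19.QS Pool.Agent.N88.ETC
  Pool.Agent.Zk81.Out

variable {S : QData} {B : Type*} [AddCommGroup B] {β : S.G → S.G → B}

section
variable (h : IsQuat S) (hB : Add S β)

/-- outside a closed subgroup the index is at least four -/
lemma four_le [Finite S.G] {H : Subgroup S.G} (hcl : Closed S H) {b : S.G} (hb : b ∉ H) :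
    4 ≤ (D h b).index := by
  have hn : ¬ IndexTwo S b := fun hc => hb (hcl.1 b hc)
  unfold IndexTwo at hn
  push Not at hn
  obtain ⟨x, y, hx, hy, hxy⟩ := hn
  have h2 : y ∉ D h b ⊔ Subgroup.zpowers x := by
    intro hc
    rcases mem_sup_z h hc with hc | hc
    · exact hy hc
    · apply hxy
      rw [mul_comm]
      exact hc
  have h3 := two_mul_index (lt_sup_zpowers (show x ∉ D h b from hx))
  have h4 := two_mul_index (lt_sup_zpowers h2)
  have h5 := index_pos (D h b ⊔ Subgroup.zpowers x ⊔ Subgroup.zpowers y)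
  omega

/-- the numerical estimate -/
lemma num_le {N H0 z d e r i : ℕ} (hz : z ≤ 3) (h1 : d * i = N) (h2 : e * r = H0)
    (h3 : 8 * H0 ≤ N) (h4 : 4 ≤ i) (h5 : 2 * r ≤ i) (h6 : 8 ≤ r * 2 ^ z) :
    64 * (d + e) ≤ N * (5 + wtB z) := by
  have e1 : 4 * d ≤ N := by rw [← h1, mul_comm]; exact Nat.mul_le_mul_left _ h4
  have e2 : 16 * d ≤ N * 2 ^ z := by
    calc 16 * d = d * (2 * 8) := by ring
      _ ≤ d * (2 * (r * 2 ^ z)) := Nat.mul_le_mul_left _ (Nat.mul_le_mul_left _ h6)
      _ = d * (2 * r) * 2 ^ z := by ring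
      _ ≤ d * i * 2 ^ z := Nat.mul_le_mul_right _ (Nat.mul_le_mul_left _ h5)
      _ = _ := by rw [h1]
  have e3 : 8 * e ≤ H0 * 2 ^ z := by
    calc 8 * e = e * 8 := by ring
      _ ≤ e * (r * 2 ^ z) := Nat.mul_le_mul_left _ h6
      _ = e * r * 2 ^ z := by ring
      _ = _ := by rw [h2]
  have hc : z = 0 ∨ z = 1 ∨ z = 2 ∨ z = 3 := by omega
  rcases hc with rfl | rfl | rfl | rfl
  · simp only [wtB]; norm_num at e2 e3 ⊢; omega
  · simp only [wtB]; norm_num at e2 e3 ⊢; omega
  · simp only [wtB]; norm_num at e2 e3 ⊢; omega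
  · simp only [wtB]; norm_num at e2 e3 ⊢; omega

include h hB in
/-- many orthogonal pairs -/
theorem elem_prob [Fintype S.G]
    (hm : 3 * Fintype.card S.G ^ 2 ≤ 16 * {p : S.G × S.G | S.q p.1 p.2 = S.zero}.ncard) :
    Elem S := by
  classical
  refine elem_of_z h hB fun H hcl hi z hz3 hz1 hrel _ hs => ?_
  set N := Fintype.card S.G with hN
  set d : S.G → ℕ := fun b => ∑ x : S.G, if S.q b x = S.zero then 1 else 0 with hd
  set e : S.G → ℕ := fun b => ∑ x : S.G, if x ∈ H ∧ S.q b x = S.zero then 1 else 0 with he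
  set H0 : ℕ := ∑ a : S.G, if a ∈ H then 1 else 0 with hH0
  have hH1 : 8 * H0 ≤ N := by
    rw [hN, ← index_mul H, mul_comm]
    exact Nat.mul_le_mul_left _ hi
  -- the number of pairs
  have hZ : {p : S.G × S.G | S.q p.1 p.2 = S.zero}.ncard = ∑ b : S.G, d b := by
    rw [ncard_sum, Fintype.sum_prod_type]
  have hd1 : ∀ b, d b * (D h b).index = N := by
    intro b
    have := index_mul (D h b)
    rw [← hN] at this
    rw [← this]
    congr 1
  have he1 : ∀ b, e b * (D h b).relIndex H = H0 := by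
    intro b
    have k1 : e b = Nat.card ((D h b).subgroupOf H) := by
      have : e b = {x | x ∈ H ∧ S.q b x = S.zero}.ncard := (ncard_sum _).symm
      rw [this, ← Nat.card_coe_set_eq]
      refine Nat.card_congr ?_
      refine ⟨fun x => ⟨⟨x.1, x.2.1⟩, x.2.2⟩, fun x => ⟨x.1.1, x.1.2, x.2⟩, fun _ => rfl,
        fun _ => rfl⟩
    have k2 : H0 = Nat.card H := by
      have : H0 = {x | x ∈ H}.ncard := (ncard_sum _).symm
      rw [this]
      exact (Nat.card_coe_set_eq (H : Set S.G)).symm
    rw [k1, k2]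
    exact Subgroup.card_mul_index _
  -- splitting
  have hsplit : ∑ b : S.G, d b ≤ (∑ b : S.G, if b ∈ H then 0 else d b + e b) + H0 * H0 := by
    have k1 : ∑ b : S.G, d b = (∑ b : S.G, if b ∈ H then 0 else d b) +
        ∑ b : S.G, if b ∈ H then d b else 0 := by
      rw [← Finset.sum_add_distrib]
      refine Finset.sum_congr rfl fun b _ => ?_
      split_ifs <;> simp
    have k2 : (∑ b : S.G, if b ∈ H then d b else 0) = ∑ x : S.G, e x := by
      have : ∀ b : S.G, (if b ∈ H then d b else 0) =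
          ∑ x : S.G, if b ∈ H ∧ S.q x b = S.zero then 1 else 0 := by
        intro b
        split_ifs with hb
        · show (∑ x : S.G, if S.q b x = S.zero then 1 else 0) = _
          refine Finset.sum_congr rfl fun x _ => ?_
          rw [h.qs2 b x]
          simp [hb]
        · simp [hb]
      simp_rw [this]
      rw [Finset.sum_comm]
    have k3 : ∑ x : S.G, e x = (∑ b : S.G, if b ∈ H then 0 else e b) +
        ∑ b : S.G, if b ∈ H then e b else 0 := by
      rw [← Finset.sum_add_distrib]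
      refine Finset.sum_congr rfl fun b _ => ?_
      split_ifs <;> simp
    have k4 : (∑ b : S.G, if b ∈ H then e b else 0) ≤ H0 * H0 := by
      rw [hH0, Finset.sum_mul]
      refine Finset.sum_le_sum fun b _ => ?_
      split_ifs with hb
      · rw [one_mul]
        refine Finset.sum_le_sum fun x _ => ?_
        by_cases hx : x ∈ H
        · rw [if_pos hx]; split_ifs <;> omega
        · rw [if_neg (fun hc => hx hc.1), if_neg hx]
      · exact Nat.zero_le _
    have k5 : (∑ b : S.G, if b ∈ H then 0 else d b + e b) =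
        (∑ b : S.G, if b ∈ H then 0 else d b) + ∑ b : S.G, if b ∈ H then 0 else e b := by
      rw [← Finset.sum_add_distrib]
      refine Finset.sum_congr rfl fun b _ => ?_
      split_ifs <;> simp
    rw [k1, k2, k3, k5]
    omega
  -- the local estimates
  have hloc : 64 * (∑ b : S.G, if b ∈ H then 0 else d b + e b) + 5 * N * H0 ≤
      N * (5 * N + ∑ b : S.G, wtB (z b)) := by
    have k1 : 64 * (∑ b : S.G, if b ∈ H then 0 else d b + e b) + 5 * N * H0 ≤
        ∑ b : S.G, N * (5 + wtB (z b)) := by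
      rw [Finset.mul_sum, hH0, Finset.mul_sum, ← Finset.sum_add_distrib]
      refine Finset.sum_le_sum fun b _ => ?_
      by_cases hb : b ∈ H
      · rw [if_pos hb, if_pos hb]
        have : 5 * N * 1 = N * 5 := by ring
        rw [this, mul_zero, zero_add]
        exact Nat.mul_le_mul_left _ (by omega)
      · rw [if_neg hb, if_neg hb, mul_zero, add_zero]
        exact num_le (hz3 b) (hd1 b) (he1 b) hH1 (four_le h hcl hb) (two_rel h hcl hb) (hrel b)
    refine k1.trans (le_of_eq ?_)
    rw [← Finset.mul_sum, Finset.sum_add_distrib, Finset.sum_const, Finset.card_univ, smul_eq_mul,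
      ← hN]
    ring
  have hNpos : 0 < N := Fintype.card_pos
  rw [hZ] at hm
  set Z := ∑ b : S.G, d b
  set A := ∑ b : S.G, if b ∈ H then 0 else d b + e b
  set W := ∑ b : S.G, wtB (z b)
  have f1 : 512 * Z ≤ 512 * A + 512 * (H0 * H0) := by omega
  have f2 : 512 * A + 40 * (N * H0) ≤ 90 * (N * N) := by
    have g1 : N * (8 * W) ≤ N * (50 * N) := Nat.mul_le_mul_left _ hs
    have g2 : 8 * (64 * A + 5 * N * H0) ≤ 8 * (N * (5 * N + W)) := Nat.mul_le_mul_left _ hloc
    have g3 : 8 * (64 * A + 5 * N * H0) = 512 * A + 40 * (N * H0) := by ring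
    have g4 : 8 * (N * (5 * N + W)) = 40 * (N * N) + N * (8 * W) := by ring
    have g5 : N * (50 * N) = 50 * (N * N) := by ring
    omega
  have f3 : 512 * (H0 * H0) ≤ 40 * (N * H0) + 3 * (N * N) := by
    have g1 : 8 * H0 * (64 * H0) ≤ N * (64 * H0) := Nat.mul_le_mul_right _ hH1
    have g2 : N * (8 * H0) ≤ N * N := Nat.mul_le_mul_left _ hH1
    have g3 : 8 * H0 * (64 * H0) = 512 * (H0 * H0) := by ring
    have g4 : N * (64 * H0) = 64 * (N * H0) := by ring
    have g5 : N * (8 * H0) = 8 * (N * H0) := by ring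
    omega
  have f4 : 96 * (N * N) ≤ 512 * Z := by
    have : N ^ 2 = N * N := by ring
    rw [this] at hm
    omega
  have f5 : 0 < N * N := Nat.mul_pos hNpos hNpos
  omega

end

end Pool.Agent.Zk92.ET
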